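import Pool.Agent.U409.OA.Stm3

set_option autoImplicit false

/-! Project OA, package RR: two adjacent rows may be exchanged. -/

namespace Pool.Agent.U397.OA.RR

open Finset Pool.Agent.U409.OA

theorem row_mul {L R : Type} [CommRing R] (X : L → L → Bool → Bool → Bool → Bool → R) (w : L)
    (a : R) : ∀ (q : List L) (r : Bool) (cs : List Bool) (k : Bool → List Bool → R),
    row X w q r cs (fun t l => a * k t l) = a * row X w q r cs k := by
  intro q
  induction q with
  | nil => intro r cs k; simp [row]
  | cons v vs ih =>
    intro r cs k
    cases cs with
    | nil => simp [row]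
    | cons c cs =>
      simp only [row]
      simp_rw [ih]
      simp only [Fintype.sum_bool]
      ring

theorem row_add {L R : Type} [CommRing R] (X : L → L → Bool → Bool → Bool → Bool → R) (w : L) :
    ∀ (q : List L) (r : Bool) (cs : List Bool) (k k' : Bool → List Bool → R),
    row X w q r cs (fun t l => k t l + k' t l) = row X w q r cs k + row X w q r cs k' := by
  intro q
  induction q with
  | nil => intro r cs k k'; simp [row]
  | cons v vs ih =>
    intro r cs k k'
    cases cs with
    | nil => simp [row]
    | cons c cs =>
      simp only [row]
      simp_rw [ih]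
      simp only [Fintype.sum_bool]
      ring

/-- the key recursion for two rows -/
theorem key {L R : Type} [CommRing R] (X : L → L → Bool → Bool → Bool → Bool → R) (a b j : L)
    (q : List L) (t1 t2 c : Bool) (cs : List Bool) (k : Bool → Bool → List Bool → R) :
    row X a (j :: q) t1 (c :: cs)
        (fun u1 cs' => row X b (j :: q) t2 cs' (fun u2 cs'' => k u1 u2 cs'')) =
      ∑ t1' : Bool, ∑ c1 : Bool, X a j t1 c t1' c1 * ∑ t2' : Bool, ∑ c' : Bool,
        X b j t2 c1 t2' c' * row X a q t1' cs (fun u1 cs' => row X b q t2' cs'
          (fun u2 cs'' => k u1 u2 (c' :: cs''))) := by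
  simp only [row]
  refine Finset.sum_congr rfl fun t1' _ => Finset.sum_congr rfl fun c1 _ => ?_
  congr 1
  simp only [Fintype.sum_bool]
  simp only [row_add, row_mul]

theorem t_RR : S_RR := by
  intro L R _ X S hY q
  induction q with
  | nil =>
    intro a b t1 t2 cs k hcs
    simp [row]
  | cons j q ih =>
    intro a b t1 t2 cs k hcs
    cases cs with
    | nil => simp at hcs
    | cons c cs =>
      have hl : cs.length = q.length := by simpa using hcs
      have ih' : ∀ e1 e2 c' : Bool, row X b q e1 cs (fun u1 cs' => row X a q e2 cs'
          (fun u2 cs'' => ∑ d1 : Bool, ∑ d2 : Bool, S a b u1 u2 d1 d2 * k d1 d2 (c' :: cs''))) =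
          ∑ d1 : Bool, ∑ d2 : Bool, S a b e1 e2 d1 d2 *
            row X a q d1 cs (fun u1 cs' => row X b q d2 cs'
              (fun u2 cs'' => k u1 u2 (c' :: cs''))) := by
        intro e1 e2 c'
        exact (ih a b e1 e2 cs (fun u1 u2 l => k u1 u2 (c' :: l)) hl).symm
      simp only [key, ih']
      generalize hR : (fun (d1 d2 c' : Bool) => row X a q d1 cs (fun u1 cs' => row X b q d2 cs'
              (fun u2 cs'' => k u1 u2 (c' :: cs'')))) = F
      have hF : ∀ d1 d2 c' : Bool, row X a q d1 cs (fun u1 cs' => row X b q d2 cs'
              (fun u2 cs'' => k u1 u2 (c' :: cs''))) = F d1 d2 c' := by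
        intro d1 d2 c'
        rw [← hR]
      simp only [hF]
      have h := fun t1' t2' c' => hY a b j t1 t2 c t1' t2' c'
      simp only [Fintype.sum_bool] at h ⊢
      linear_combination F true true true * h true true true + F true true false * h true true false +
        F true false true * h true false true + F true false false * h true false false +
        F false true true * h false true true + F false true false * h false true false +
        F false false true * h false false true + F false false false * h false false false

end Pool.Agent.U397.OA.RR
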